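import Pool.Agent.Helper19.SQ.GoalsQ2

/-!
Project SQ (MP_bb32d1_al), packet XQ (helper15): `X2 = S X1 T + u v`.
-/

namespace Pool.Agent.Helper15.SQ

open Pool.Agent.Helper19.SQ

noncomputable section

open Matrix

theorem sc_mul' {A : Type} [Ring A] [Algebra ℂ A] {κ : Type} [Fintype κ] (S T : Matrix κ κ ℂ) :
    sc A (S * T) = sc A S * sc A T := by
  unfold sc
  exact Matrix.map_mul

theorem sc_one' {A : Type} [Ring A] [Algebra ℂ A] {κ : Type} [Fintype κ] [DecidableEq κ] :
    sc A (1 : Matrix κ κ ℂ) = 1 := by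
  unfold sc
  exact Matrix.map_one _ (map_zero _) (map_one _)

/-- `X13 P = P X1`. -/
theorem X13P (N l : ℕ) (q : ℂ) :
    X13 N l q * sc (A N l q) (Pm N) = sc (A N l q) (Pm N) * X1 (Xm N l q) := by
  ext x y
  rw [Matrix.mul_apply, Matrix.mul_apply]
  rw [Finset.sum_eq_single (y.2, y.1), Finset.sum_eq_single (x.2, x.1)]
  · simp only [X13, sc, Pm, X1, Matrix.of_apply, Matrix.map_apply]
    by_cases h : x.2 = y.1
    · simp [h]
    · simp [h]
  · intro b _ hb
    have : ¬ (x.1 = b.2 ∧ x.2 = b.1) := by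
      rintro ⟨h1, h2⟩
      exact hb (Prod.ext h2.symm h1.symm)
    simp only [sc, Pm, Matrix.of_apply, Matrix.map_apply, if_neg this, map_zero, zero_mul]
  · intro h
    exact absurd (Finset.mem_univ _) h
  · intro b _ hb
    have : ¬ (b.1 = y.2 ∧ b.2 = y.1) := by
      rintro ⟨h1, h2⟩
      exact hb (Prod.ext h1 h2)
    simp only [sc, Pm, Matrix.of_apply, Matrix.map_apply, if_neg this, map_zero, mul_zero]
  · intro h
    exact absurd (Finset.mem_univ _) h

/-- `(ω cup cap) M = - u (cap M)`. -/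
theorem cupcap (N l : ℕ) (q : ℂ)
    (M : Matrix (Fin (N + 1) × Fin (N + 1)) (Fin (N + 1) × Fin (N + 1)) (A N l q)) :
    sc (A N l q) ((q - q⁻¹) • vecMulVec (cupn N q) (capn N q)) * M
      = - vecMulVec (uvec N l q) (vecMul (capv N l q) M) := by
  ext x y
  rw [Matrix.mul_apply, Matrix.neg_apply, Matrix.vecMulVec_apply, Matrix.vecMul,
    dotProduct, Finset.mul_sum, ← Finset.sum_neg_distrib]
  refine Finset.sum_congr rfl fun z _ => ?_
  simp only [sc, Matrix.map_apply, Matrix.smul_apply, Matrix.vecMulVec_apply, cupn, capn, uvec,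
    capv, smul_eq_mul]
  by_cases h1 : x.1 = x.2
  · by_cases h2 : z.1 = z.2
    · simp only [if_pos h1, if_pos h2, Algebra.algebraMap_eq_smul_one, smul_mul_assoc, one_mul,
        smul_smul]
      rw [← neg_smul]
      congr 1
      ring
    · simp [if_neg h2]
  · simp [if_neg h1]

theorem sX2Q (hXF : S_XF) (hSM : S_SM) : S_X2Q := by
  intro N l q hP D
  have hl : l ≠ 0 := by
    have := hP.h3
    omega
  have hq : q ≠ 0 := hP.prim.ne_zero hl
  obtain ⟨hST, hTS, hRS, hRY⟩ := hSM N q hq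
  have hRL : RLm N q = Pm N * Tmat N q := by
    rw [← hRS, Matrix.mul_assoc, hST, Matrix.mul_one]
  rw [hXF N l q hP D, hRL, sc_mul']
  have e1 : sc (A N l q) (RYm N q) * X13 N l q * (sc (A N l q) (Pm N) * sc (A N l q) (Tmat N q))
      = sc (A N l q) (RYm N q * Pm N) * (X1 (Xm N l q) * sc (A N l q) (Tmat N q)) := by
    rw [sc_mul']
    calc sc (A N l q) (RYm N q) * X13 N l q * (sc (A N l q) (Pm N) * sc (A N l q) (Tmat N q))
        = sc (A N l q) (RYm N q) * (X13 N l q * sc (A N l q) (Pm N))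
          * sc (A N l q) (Tmat N q) := by simp only [Matrix.mul_assoc]
      _ = _ := by
          rw [X13P]
          simp only [Matrix.mul_assoc]
  rw [e1, hRY]
  have e2 : sc (A N l q) (Smat N q - (q - q⁻¹) • vecMulVec (cupn N q) (capn N q))
      = sc (A N l q) (Smat N q)
        - sc (A N l q) ((q - q⁻¹) • vecMulVec (cupn N q) (capn N q)) := by
    ext x y
    simp only [sc, Matrix.map_apply, Matrix.sub_apply, map_sub]
  rw [e2, Matrix.sub_mul, cupcap, sub_neg_eq_add, Matrix.mul_assoc]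
  rfl

end

end Pool.Agent.Helper15.SQ
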